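import Pool.Agent.Y631.WcSum

/-!
# 3SUM by word circuits: number of reads and treewidth

The input is a list of `m` different integers between `-m³` and `m³`; we ask if one of them is the
sum of two others. We consider straight-line programs for such inputs (`WCirc`): each of the gates
holds a word (an element of a finite set `Z`, for instance the words of `w` bits), and computes an
ARBITRARY function of at most `κ` items of the list and words of earlier gates. The relevant
parameters are

* the number of reads `C.reads`: the number of wires from items to gates; this is a lower bound for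
  the running time,
* the treewidth `θ` of the graph of the gates (whose edges are the wires between gates; the items
  are deleted). A program with few registers has small treewidth, but a circuit of small treewidth
  may use arbitrarily many words at the same time.

**Result.** If a circuit with `C.reads ≤ r m` decides 3SUM, and the words (and the numbers
`0, …, m - 1`) fit in `w` bits, then

`m ^ (m / 2 ^ (24 r + 1)) ≤ 2 ^ (w · 10000 r² (κ + 1) (θ + 1)) + 1`.

So, if `w = O (log m)` and `κ` is constant, the treewidth is at least `m / 2 ^ (25 r + O (1))`; in
other words: with treewidth at most `m ^ (1 - ε)` one needs `Ω (ε m log m)` reads. As the randomized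
algorithms of the 3SUM hypothesis of this problem are always correct, the bound holds for the expected
number of reads of randomized circuits. For nondeterministic circuits that accept exactly the lists
without a solution the same trade-off holds with `2` instead of the first `m`.

**Proof.** The circuit is cut into `O (r²)` parts with few reads in each of them by the removal of
`O (r² (θ + 1))` gates. By averaging there are sets `A` and `E` of `m / 2 ^ O (r)` places of the list
and a division of the parts into two sides such that the places in `A` are read on the first side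
only, and those of `E` on the second side only. The `j`-th place of `A` gets the number
`7 (q j + a_j) + 1`, the `j`-th place of `E` the number `D + 7 (q j + b_j) + 1`, and another place
gets `D`, where `D` is a large multiple of 7; the other places get numbers which are `3` modulo `7`.
So there is a solution iff `a_j = b_j` for some `j`. For fixed values of the removed gates (and of
those they are joined to) the accepted inputs form a combinatorial rectangle, and a fooling set, or
the rank of the `k`-th tensor power of the matrix with the entries `[a ≠ b]`, gives the bounds.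
-/

set_option autoImplicit false

namespace Pool.Agent.Results.MP_13bec0_lc.TreewidthTimesReads

open Pool.Agent.Y631.Wc

/-- (A) Let `C` be a word circuit for lists of `m` integers, whose gates have fan-in at most `κ` and
values in `Z`, with at most `r m` reads, and of treewidth at most `θ`. Let `2 ≤ q ≤ L`, `q ≤ m` and
`|Z| ≤ L`.

1. If `C` (nondeterministic) accepts exactly the sets without solution of `a + b = c` then
   `2 ^ (m / 2 ^ (24 r + 1)) ≤ L ^ (10000 r² (κ + 1) (θ + 1))`.
2. If moreover `C` has at most one accepting computation for each input (which holds if the gates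
   compute functions, `Deterministic.unambiguous`) then
   `q ^ (m / 2 ^ (24 r + 1)) ≤ L ^ (10000 r² (κ + 1) (θ + 1))`.
3. If `C` has at most one accepting computation for each input and accepts exactly the sets with a
   solution then `q ^ (m / 2 ^ (24 r + 1)) ≤ L ^ (10000 r² (κ + 1) (θ + 1)) + 1`.

The circuit has to be correct only for lists of different integers between `-m³` and `m³`.

(B) For all `c`, `κ` and `0 < ε ≤ 1` and all large `m`: if random deterministic (or unambiguous)
circuits of fan-in `κ` whose gates have at most `m ^ c` values (words of `c log m` bits), of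
treewidth at most `m ^ (1 - ε)`, always decide 3SUM for `m` numbers correctly, then the expected
number of reads is at least `(ε / 30) m log₂ m`. -/
theorem result :
    (∀ {r κ θ m q L : ℕ} (_ : 1 ≤ r) (_ : 2 ≤ q) (_ : q ≤ L) (_ : q ≤ m)
      {Z : Type} [Fintype Z] (_ : Fintype.card Z ≤ L) (C : WCirc (Fin m) ℤ Z)
      (_ : C.FanIn κ) (_ : C.TreewidthLE θ) (_ : C.reads ≤ r * m),
      ((∀ x, IsSet x → (C.Accepts x ↔ ¬ HasSum x)) →
        2 ^ (m / 2 ^ (24 * r + 1)) ≤ L ^ (10000 * r ^ 2 * (κ + 1) * (θ + 1))) ∧
      (C.Unambiguous → (∀ x, IsSet x → (C.Accepts x ↔ ¬ HasSum x)) →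
        q ^ (m / 2 ^ (24 * r + 1)) ≤ L ^ (10000 * r ^ 2 * (κ + 1) * (θ + 1))) ∧
      (C.Unambiguous → (∀ x, IsSet x → (C.Accepts x ↔ HasSum x)) →
        q ^ (m / 2 ^ (24 * r + 1)) ≤ L ^ (10000 * r ^ 2 * (κ + 1) * (θ + 1)) + 1)) ∧
    ∀ (c κ : ℕ) (ε : ℝ), 0 < ε → ε ≤ 1 → ∃ m₀ : ℕ, ∀ m ≥ m₀, ∀ (Z : Type) [Fintype Z],
      Fintype.card Z ≤ m ^ c → ∀ (Ω : Type) [Fintype Ω] (p : Ω → ℝ), (∀ ω, 0 ≤ p ω) →
      ∑ ω, p ω = 1 → ∀ (C : Ω → WCirc (Fin m) ℤ Z) (θ : ℕ), (θ : ℝ) ≤ (m : ℝ) ^ (1 - ε) →
        (∀ ω, (C ω).FanIn κ ∧ (C ω).TreewidthLE θ ∧ (C ω).Unambiguous ∧
          ((∀ x, IsSet x → ((C ω).Accepts x ↔ HasSum x)) ∨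
            (∀ x, IsSet x → ((C ω).Accepts x ↔ ¬ HasSum x)))) →
        ε / 30 * (m * Real.logb 2 m) ≤ ∑ ω, p ω * (C ω).reads :=
  ⟨fun hr hq hqL hqm _ _ hZ C hκ hθ hR => sum_bounds hr hq hqL hqm hZ C hκ hθ hR, sum_random⟩

end Pool.Agent.Results.MP_13bec0_lc.TreewidthTimesReads
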